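import Pool.Agent.K1H16.TS.Stm

/-!
# Outer layer for `m = 3` (piece `S_T4` of `K1H16.TS`)
-/

set_option linter.unusedVariables false

namespace K1H74.TS
open K1H16.TS

/-- Elements of a conflict-free set which differ are not in conflict. -/
theorem ncf {S : Finset Pr} (hS : Ind S) {a x b y a' x' b' y' : ℤ} (hu : (⟨a, x, b, y⟩ : Pr) ∈ S)
    (hv : (⟨a', x', b', y'⟩ : Pr) ∈ S) (h : ¬ (a = a' ∧ y = y')) :
    ¬ (a ≤ a' ∧ x ≤ x' ∧ b ≤ b' ∧ y ≤ y' ∧ (a' < b ∨ x' < y)) ∧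
    ¬ (a' ≤ a ∧ x' ≤ x ∧ b' ≤ b ∧ y' ≤ y ∧ (a < b' ∨ x < y')) := by
  constructor
  · intro hc
    have := hS _ hu _ hv hc
    simp only [Pr.mk.injEq] at this
    exact h ⟨this.1, this.2.2.2⟩
  · intro hc
    have := hS _ hv _ hu hc
    simp only [Pr.mk.injEq] at this
    exact h ⟨this.1.symm, this.2.2.2.symm⟩

/-- the index function for `h ≥ 2` -/
def ix (h a x b y : ℤ) : ℤ :=
  if y = 3 then
    (if x = 0 then a else if x = 1 then h + 1 + a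
      else if x = 2 then (if a ≤ h - 2 then 2 * h + 1 + a else 4 * h - 1)
      else 3 * h + a)
  else if x = 1 ∧ y = 2 then 4 * h else 4 * h + 1

/-- The shape of the elements of the outer layer, with their index `t`. -/
def Form (h a x b y t : ℤ) : Prop :=
  (y = 3 ∧ x = 0 ∧ 0 ≤ a ∧ a ≤ h ∧ t = a) ∨
  (y = 3 ∧ x = 1 ∧ 0 ≤ a ∧ a ≤ h - 1 ∧ t = h + 1 + a) ∨
  (y = 3 ∧ x = 2 ∧ 0 ≤ a ∧ a ≤ h - 2 ∧ t = 2 * h + 1 + a) ∨
  (y = 3 ∧ x = 2 ∧ h - 1 ≤ a ∧ a = b ∧ t = 4 * h - 1) ∨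
  (y = 3 ∧ x = 3 ∧ 0 ≤ a ∧ a < b ∧ a ≤ h - 2 ∧ t = 3 * h + a) ∨
  (y = 2 ∧ x = 1 ∧ a = 0 ∧ b = 2 * h + 1 ∧ t = 4 * h) ∨
  (y = 0 ∧ x = 0 ∧ a = 0 ∧ b = 1 ∧ t = 4 * h + 1) ∨
  (y = 1 ∧ x = 1 ∧ a = 0 ∧ b = 1 ∧ t = 4 * h + 1) ∨
  (y = 2 ∧ x = 2 ∧ a = 0 ∧ 1 ≤ b ∧ t = 4 * h + 1)

theorem form_range {h a x b y t : ℤ} (hh : 2 ≤ h) (H : Form h a x b y t) :
    0 ≤ t ∧ t < 4 * h + 2 := by
  unfold Form at H
  rcases H with H | H | H | H | H | H | H | H | H <;> omega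

theorem form_clique {h a x b y a' x' b' y' t : ℤ} (hh : 2 ≤ h) (H : Form h a x b y t)
    (H' : Form h a' x' b' y' t) (hle : x + b ≤ x' + b') :
    (a = a' ∧ x = x' ∧ b = b' ∧ y = y') ∨
      (a ≤ a' ∧ x ≤ x' ∧ b ≤ b' ∧ y ≤ y' ∧ (a' < b ∨ x' < y)) := by
  unfold Form at H H'
  rcases H with H | H | H | H | H | H | H | H | H <;>
  rcases H' with H' | H' | H' | H' | H' | H' | H' | H' | H' <;> omega

section
variable {S : Finset Pr} (hS : Ind S)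
include hS

/-- facts about the elements of the outer layer, `h ≥ 2` -/
theorem form_ix {n : ℕ} {h : ℤ} (hn : (n : ℤ) = 2 * h + 1) (hh : 2 ≤ h)
    (c1 : ∀ p : ℤ, 1 ≤ p → 2 * p ≤ n + 1 → (⟨p, 0, n + 1 - p, 2⟩ : Pr) ∈ S)
    (c2 : ∀ p : ℤ, 1 ≤ p → 2 * p ≤ n - 3 → (⟨p, 1, n - p, 2⟩ : Pr) ∈ S)
    (c3 : (⟨1, 1, n, 1⟩ : Pr) ∈ S) (c4 : (⟨h, 1, h, 2⟩ : Pr) ∈ S)
    (c5 : (⟨h, 2, h + 1, 2⟩ : Pr) ∈ S) (c6 : (⟨h - 1, 2, h, 2⟩ : Pr) ∈ S)
    {a x b y : ℤ} (hu : (⟨a, x, b, y⟩ : Pr) ∈ S) (h1 : a ≤ b) (h2 : x ≤ y)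
    (h3 : a < b ∨ x < y) (h4 : 0 ≤ a) (h5 : b ≤ n) (h6 : 0 ≤ x) (h7 : y ≤ 3)
    (h8 : a = 0 ∨ y = 3) : Form h a x b y (ix h a x b y) := by
  by_cases hy : y = 3
  · subst hy
    have C1 : ∀ p : ℤ, 1 ≤ p → p ≤ h + 1 → p ≤ a → n + 1 - p ≤ b →
        ¬ (a < n + 1 - p ∨ x < 2) := by
      intro p hp hp' hpa hpb hc
      exact (ncf hS hu (c1 p hp (by omega)) (by omega)).2 ⟨hpa, h6, hpb, by omega, hc⟩
    have hx : x = 0 ∨ x = 1 ∨ x = 2 ∨ x = 3 := by omega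
    rcases hx with rfl | rfl | rfl | rfl
    · left
      have : a ≤ h := by
        by_contra hc
        exact C1 (h + 1) (by omega) (by omega) (by omega) (by omega) (Or.inr (by omega))
      exact ⟨rfl, rfl, h4, this, by simp [ix]⟩
    · right; left
      have : a ≤ h - 1 := by
        by_contra hc
        exact (ncf hS hu c4 (by omega)).2 ⟨by omega, by omega, by omega, by omega,
          Or.inr (by omega)⟩
      exact ⟨rfl, rfl, h4, this, by simp [ix]⟩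
    · right; right
      by_cases ha : a ≤ h - 2
      · left
        exact ⟨rfl, rfl, h4, ha, by simp [ix, ha]⟩
      · right; left
        refine ⟨rfl, rfl, by omega, ?_, by simp [ix, ha]⟩
        by_contra hab
        have k5 := (ncf hS hu c5 (by omega)).2
        have k6 := (ncf hS hu c6 (by omega)).2
        have : h + 1 ≤ a := by omega
        exact C1 (n - a) (by omega) (by omega) (by omega) (by omega) (Or.inl (by omega))
    · right; right; right; right; left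
      have hab : a < b := by omega
      refine ⟨rfl, rfl, h4, hab, ?_, by simp [ix]⟩
      by_contra ha
      have k5 := (ncf hS hu c5 (by omega)).2
      have k6 := (ncf hS hu c6 (by omega)).2
      have : h + 1 ≤ a := by omega
      exact C1 (n - a) (by omega) (by omega) (by omega) (by omega) (Or.inl (by omega))
  · have ha : a = 0 := by tauto
    subst ha
    have k1 := (ncf hS hu (c1 1 (by omega) (by omega)) (by omega)).1
    have k2 := (ncf hS hu (c2 1 (by omega) (by omega)) (by omega)).1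
    have k3 := (ncf hS hu c3 (by omega)).1
    have hx : x = 0 ∨ x = 1 ∨ x = 2 := by omega
    right; right; right; right; right
    rcases hx with rfl | rfl | rfl
    · right; left
      have e1 : y = 0 := by omega
      have e2 : b = 1 := by omega
      subst e1 e2
      exact ⟨rfl, rfl, rfl, rfl, by simp [ix]⟩
    · by_cases e1 : y = 1
      · right; right; left
        have e2 : b = 1 := by omega
        subst e1 e2
        exact ⟨rfl, rfl, rfl, rfl, by simp [ix]⟩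
      · left
        have e1 : y = 2 := by omega
        have e2 : b = 2 * h + 1 := by omega
        subst e1 e2
        exact ⟨rfl, rfl, rfl, rfl, by simp [ix]⟩
    · right; right; right
      have e1 : y = 2 := by omega
      subst e1
      exact ⟨rfl, rfl, rfl, by omega, by simp [ix]⟩

/-- the case `n ≥ 5` -/
theorem T4_big {n h : ℕ} (hn : n = 2 * h + 1) (hh : 2 ≤ h) (hG : ∀ u ∈ S, Gr n 3 u)
    (c1 : ∀ p : ℤ, 1 ≤ p → 2 * p ≤ n + 1 → (⟨p, 0, n + 1 - p, 2⟩ : Pr) ∈ S)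
    (c2 : ∀ p : ℤ, 1 ≤ p → 2 * p ≤ n - 3 → (⟨p, 1, n - p, 2⟩ : Pr) ∈ S)
    (c3 : (⟨1, 1, n, 1⟩ : Pr) ∈ S) (c4 : (⟨h, 1, h, 2⟩ : Pr) ∈ S)
    (c5 : (⟨h, 2, h + 1, 2⟩ : Pr) ∈ S) (c6 : (⟨h - 1, 2, h, 2⟩ : Pr) ∈ S) :
    (S.filter (fun u : Pr => u.a = 0 ∨ u.y = 3)).card ≤ 2 * n := by
  have hn' : (n : ℤ) = 2 * h + 1 := by exact_mod_cast hn
  have hh' : (2 : ℤ) ≤ h := by exact_mod_cast hh
  have key : ∀ u ∈ S.filter (fun u : Pr => u.a = 0 ∨ u.y = 3),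
      Form h u.a u.x u.b u.y (ix h u.a u.x u.b u.y) := by
    intro u hu
    rw [Finset.mem_filter] at hu
    obtain ⟨⟨h1, h2, h3⟩, h4, h5, h6, h7⟩ := hG u hu.1
    exact form_ix hS hn' hh' c1 c2 c3 c4 c5 c6 hu.1 h1 h2 h3 h4 h5 h6 h7 hu.2
  refine card_le_idx (hS.subset (Finset.filter_subset _ _)) (fun u => ix h u.a u.x u.b u.y) _ ?_ ?_
  · intro u hu
    have := form_range hh' (key u hu)
    refine ⟨this.1, ?_⟩
    push_cast
    rw [hn']
    linarith [this.2]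
  · intro u hu v hv huv
    have ku := key u hu
    have kv := key v hv
    have huv' : ix h u.a u.x u.b u.y = ix h v.a v.x v.b v.y := huv
    rw [← huv'] at kv
    rcases le_total (u.x + u.b) (v.x + v.b) with hle | hle
    · rcases form_clique hh' ku kv hle with h | h
      · left; exact ok_of_eq h
      · right; left; exact h
    · rcases form_clique hh' kv ku hle with h | h
      · left; exact (ok_of_eq h).symm
      · right; right; exact h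

end

/-! ### The case `n = 3` -/

/-- the 25 possible elements for `n = 3`, with their index -/
def L3 : List (ℤ × ℤ × ℤ × ℤ × ℤ) :=
  [(0,0,0,3,5), (0,0,1,3,5), (0,0,2,3,5), (0,0,3,3,5), (0,1,3,3,5), (0,2,3,3,5), (3,2,3,3,5),
   (0,0,1,0,4), (0,1,1,1,4), (0,1,1,3,4), (0,1,2,3,4), (0,2,2,3,4), (0,3,2,3,4), (0,3,3,3,4),
   (0,1,0,3,3), (0,2,0,3,3), (0,2,1,3,3), (1,2,1,3,3), (2,2,2,3,3),
   (0,1,3,2,2), (0,2,3,2,2), (0,2,1,2,1), (0,3,1,3,1), (1,0,1,3,0), (1,0,2,3,0)]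

/-- the index for `n = 3` -/
def j3 (a x b y : ℤ) : ℤ :=
  ((L3.find? (fun p => decide (p.1 = a ∧ p.2.1 = x ∧ p.2.2.1 = b ∧ p.2.2.2.1 = y))).map
    (fun p => p.2.2.2.2)).getD 0

theorem L3_range : ∀ p ∈ L3, 0 ≤ p.2.2.2.2 ∧ p.2.2.2.2 < 6 := by decide

theorem L3_clique : ∀ p ∈ L3, ∀ q ∈ L3, p.2.2.2.2 = q.2.2.2.2 →
    (p.1 = q.1 ∧ p.2.1 = q.2.1 ∧ p.2.2.1 = q.2.2.1 ∧ p.2.2.2.1 = q.2.2.2.1) ∨
    (p.1 ≤ q.1 ∧ p.2.1 ≤ q.2.1 ∧ p.2.2.1 ≤ q.2.2.1 ∧ p.2.2.2.1 ≤ q.2.2.2.1 ∧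
      (q.1 < p.2.2.1 ∨ q.2.1 < p.2.2.2.1)) ∨
    (q.1 ≤ p.1 ∧ q.2.1 ≤ p.2.1 ∧ q.2.2.1 ≤ p.2.2.1 ∧ q.2.2.2.1 ≤ p.2.2.2.1 ∧
      (p.1 < q.2.2.1 ∨ p.2.1 < q.2.2.2.1)) := by decide +kernel

/-- not `Cf` as a Boolean -/
def nc (a x b y a' x' b' y' : ℤ) : Bool :=
  !(decide (a ≤ a') && decide (x ≤ x') && decide (b ≤ b') && decide (y ≤ y') &&
    (decide (a' < b) || decide (x' < y)))

theorem nc_of {a x b y a' x' b' y' : ℤ}
    (h : ¬ (a ≤ a' ∧ x ≤ x' ∧ b ≤ b' ∧ y ≤ y' ∧ (a' < b ∨ x' < y))) :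
    nc a x b y a' x' b' y' = true := by
  unfold nc
  simp only [Bool.not_eq_true', Bool.and_eq_false_iff, Bool.or_eq_false_iff, decide_eq_false_iff_not]
  tauto

/-- not in conflict with the given elements -/
def good (a x b y : ℤ) : Bool :=
  decide (a ≤ b) && decide (x ≤ y) && (decide (a < b) || decide (x < y)) &&
  (decide (a = 0) || decide (y = 3)) &&
  nc a x b y 1 0 3 2 && nc 1 0 3 2 a x b y && nc a x b y 2 0 2 2 && nc 2 0 2 2 a x b y &&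
  nc a x b y 1 1 3 1 && nc 1 1 3 1 a x b y && nc a x b y 1 1 1 2 && nc 1 1 1 2 a x b y &&
  nc a x b y 1 2 2 2 && nc 1 2 2 2 a x b y

/-- membership in `L3` -/
def inL (a x b y : ℤ) : Bool :=
  L3.any (fun p => p.1 == a && p.2.1 == x && p.2.2.1 == b && p.2.2.2.1 == y &&
    p.2.2.2.2 == j3 a x b y)

theorem inL_mem {a x b y : ℤ} (h : inL a x b y = true) : (a, x, b, y, j3 a x b y) ∈ L3 := by
  unfold inL at h
  rw [List.any_eq_true] at h
  obtain ⟨⟨p1, p2, p3, p4, p5⟩, hp, h⟩ := h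
  simp only [Bool.and_eq_true, beq_iff_eq] at h
  obtain ⟨⟨⟨⟨rfl, rfl⟩, rfl⟩, rfl⟩, h5⟩ := h
  rw [← h5]
  exact hp

theorem L3_mem : ∀ a ∈ List.range 4, ∀ x ∈ List.range 4, ∀ b ∈ List.range 4, ∀ y ∈ List.range 4,
    good a x b y = true → inL a x b y = true := by decide +kernel

/-- the case `n = 3` -/
theorem T4_three {S : Finset Pr} (hS : Ind S) (hG : ∀ u ∈ S, Gr 3 3 u)
    (c1 : (⟨1, 0, 3, 2⟩ : Pr) ∈ S) (c1' : (⟨2, 0, 2, 2⟩ : Pr) ∈ S)
    (c3 : (⟨1, 1, 3, 1⟩ : Pr) ∈ S) (c4 : (⟨1, 1, 1, 2⟩ : Pr) ∈ S)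
    (c5 : (⟨1, 2, 2, 2⟩ : Pr) ∈ S) :
    (S.filter (fun u : Pr => u.a = 0 ∨ u.y = 3)).card ≤ 6 := by
  have key : ∀ u ∈ S.filter (fun u : Pr => u.a = 0 ∨ u.y = 3),
      (u.a, u.x, u.b, u.y, j3 u.a u.x u.b u.y) ∈ L3 := by
    intro u hu
    rw [Finset.mem_filter] at hu
    obtain ⟨⟨h1, h2, h3⟩, h4, h5, h6, h7⟩ := hG u hu.1
    obtain ⟨hu, h8⟩ := hu
    obtain ⟨a, x, b, y⟩ := u
    simp only at h1 h2 h3 h4 h5 h6 h7 h8 ⊢
    have k1 := ncf hS hu c1 (by omega)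
    have k2 := ncf hS hu c1' (by omega)
    have k3 := ncf hS hu c3 (by omega)
    have k4 := ncf hS hu c4 (by omega)
    have k5 := ncf hS hu c5 (by omega)
    clear hu hG hS c1 c1' c3 c4 c5
    lift a to ℕ using h4
    lift x to ℕ using h6
    lift b to ℕ using (by omega)
    lift y to ℕ using (by omega)
    have e1 : a ∈ List.range 4 := by rw [List.mem_range]; omega
    have e2 : x ∈ List.range 4 := by rw [List.mem_range]; omega
    have e3 : b ∈ List.range 4 := by rw [List.mem_range]; omega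
    have e4 : y ∈ List.range 4 := by rw [List.mem_range]; omega
    refine inL_mem (L3_mem a e1 x e2 b e3 y e4 ?_)
    unfold good
    simp only [nc_of k1.1, nc_of k1.2, nc_of k2.1, nc_of k2.2, nc_of k3.1, nc_of k3.2,
      nc_of k4.1, nc_of k4.2, nc_of k5.1, nc_of k5.2, h1, h2, h8, Bool.and_true,
      decide_true, Bool.true_and, Bool.and_eq_true, Bool.or_eq_true, decide_eq_true_eq]
    exact ⟨h3, trivial⟩
  refine card_le_idx (hS.subset (Finset.filter_subset _ _)) (fun u => j3 u.a u.x u.b u.y) _ ?_ ?_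
  · intro u hu
    have := L3_range _ (key u hu)
    simpa using this
  · intro u hu v hv huv
    rcases L3_clique _ (key u hu) _ (key v hv) huv with h | h | h
    · left; exact ok_of_eq h
    · right; left; exact h
    · right; right; exact h

/-- **piece `S_T4`** -/
theorem t_T4 : S_T4 := by
  intro n h hn hh S hS hG c1 c2 c3 c4 c5 c6
  by_cases h2 : 2 ≤ h
  · exact T4_big hS hn h2 hG c1 c2 c3 c4 c5 (c6 h2)
  · have e : h = 1 := by omega
    subst e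
    subst hn
    have d1 := c1 1 (by omega) (by norm_num)
    have d2 := c1 2 (by omega) (by norm_num)
    norm_num at d1 d2 c3 c4 c5
    exact T4_three hS (by simpa using hG) d1 d2 c3 c4 c5

end K1H74.TS
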